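import Pool.Agent.H98.WH.Final

/-!
# For every t an oracle relative to which W[t] = FPT but W[t+1] ≠ FPT

Definitions: `Pool/Agent/H98/WH/Defs.lean` (the classes), `Pool/Agent/H88/RO/Model.lean` (programs with oracle and their costs), `Pool/Agent/H88/RO/Machine.lean` (unary numerals `num`).
-/

set_option autoImplicit false

namespace Pool.Agent.Results.MP_bac569_lc.OracleHierarchy

open Pool.H98.WH

/-- For every `t ≥ 1` there is an oracle `A` such that W[t] = FPT relative to `A`, and some parameterized problem, with a parameterization computable in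
polynomial time without oracle, is in W[t+1] but not in FPT relative to `A`. -/
theorem result (t : ℕ) (ht : 1 ≤ t) : ∃ A : List Bool → Bool,
    (∀ (Q : List Bool → Prop) (κ : List Bool → ℕ), InW A t Q κ ↔ InFPT A Q κ) ∧
    ∃ (Q : List Bool → Prop) (κ : List Bool → ℕ), PolyPar κ ∧ InW A (t + 1) Q κ ∧
      ¬ InFPT A Q κ :=
  final t ht

end Pool.Agent.Results.MP_bac569_lc.OracleHierarchy
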